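import Mathlib
import Pool.Agent.Q1.RS.MQ

/-!
# Tate-Shafarevich groups over multiquadratic fields along arbitrary sequences

Let `E : y² = (x - e₁) (x - e₂) (x - e₃)` be an elliptic curve with integers `e₁`, `e₂`, `e₃`, let
`D₀`, `D₁`, ..., `D_s` be nonzero polynomials with integer coefficients, `F_t` the number field
`ℚ(√D₁(t), ..., √D_s(t))` and `W_t` the quadratic twist of `E` by `D₀(t)`, considered over `F_t`.
Let `m(t)` be the rank of `W_t(F_t)` plus the corank of the 2-primary part of `Ш(W_t / F_t)`.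
We study the `m(t)` for `t = ⌊α x_n⌋`, where `x_n` is an arbitrary sequence of real numbers.

* For every real sequence `x_n`, and for almost every real `α`, `m(t)` is `o(log n)`.
* If `x_(n+1) ≥ x_n ^ (1 + δ)`, then for almost every `α` all the moments of `2 ^ m(t)` along the
  sequence are bounded, by numbers that depend neither on `α` nor on the sequence, and for
  all `α` in a set of Hausdorff dimension one `m(t) ≤ R` for all `n`.
-/

set_option autoImplicit false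

namespace Pool.Agent.Results.MP_78d38b_nt.FieldsAlongSequences

open Finset Filter Polynomial MeasureTheory

open Pool.Agent.TH841.NF.D (HasDiv crk rk)

/-- the curve `y² = x³ + A x + B` over `F` -/
def EF (A B : ℤ) (F : Type) [Field F] : WeierstrassCurve F := ⟨0, 0, 0, (A : F), (B : F)⟩

/-- the number field `F` is generated by square roots of the integers `d i` -/
def Gen (F : Type) [Field F] [NumberField F] {s : ℕ} (d : Fin s → ℤ) : Prop :=
  ∃ x : Fin s → F, (∀ i, x i ^ 2 = (d i : F)) ∧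
    IntermediateField.adjoin ℚ (Set.range x) = ⊤

/-- `t` is not a zero of the polynomials -/
def Good {s : ℕ} (D₀ : ℤ[X]) (D : Fin s → ℤ[X]) (t : ℤ) : Prop :=
  D₀.eval t ≠ 0 ∧ ∀ i, (D i).eval t ≠ 0

/-- the quadratic twist by `D₀(t)`, over `F` -/
def Tw (A B : ℤ) (D₀ : ℤ[X]) (t : ℤ) (F : Type) [Field F] : WeierstrassCurve F :=
  EF (D₀.eval t ^ 2 * A) (D₀.eval t ^ 3 * B) F

/-- the rank of the group of the points plus the corank of the 2-primary part of the
Tate-Shafarevich group, for the twist by `D₀(t)` over the field `F` -/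
noncomputable def m (A B : ℤ) (D₀ : ℤ[X]) (t : ℤ) (F : Type) [Field F] [NumberField F] : ℕ :=
  rk (Tw A B D₀ t F) + crk (Tw A B D₀ t F)

open Classical in
/-- **Theorem.** Let `y² = (x - e₁) (x - e₂) (x - e₃) = x³ + A x + B` be an elliptic curve with
integers `e₁`, `e₂`, `e₃`, let `D₀`, `D₁`, ..., `D_s` be nonzero polynomials with integer
coefficients; `F t = ℚ(√D₁(t), ..., √D_s(t))` if `t` is not a zero of the polynomials.

* (0) If `t` is not a zero of the polynomials the numbers `q` such that `Ш(W_t / F_t)` has a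
  subgroup `(ℚ₂/ℤ₂)^q` are bounded.
* (1) For every real sequence `x_n` and almost every real `α`: for all `ε > 0`, from some `n` on,
  `m(t) ≤ ε log n` for `t = ⌊α x_n⌋` if this is not a zero of the polynomials.
* (2) For all `δ > 0` and `k` there is `K` such that for every sequence `x_n → ∞` with
  `x_(n+1) ≥ x_n ^ (1 + δ)` from some `n` on and for almost every `α`, from some `N` on: the sum of
  `2 ^ (k m(t))` over the `n < N` (with `t = ⌊α x_n⌋` not a zero) is at most `K N`, and for every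
  `r` at most `K N / 2 ^ (k r)` of these `n` have `m(t) ≥ r`.
* (3) For all `δ > 0` there is `R` such that for all `u < v` and all sequences with
  `x_(n+1) ≥ x_n ^ (1 + δ)` for all `n` and `x_0` large enough (in terms of `u` and `v`) the set of
  the `α` in `[u, v]` such that for all `n` the number `t = ⌊α x_n⌋` is not a zero of the polynomials
  and `m(t) ≤ R` has Hausdorff dimension one. -/
theorem result (A B e₁ e₂ e₃ : ℤ) (hE : 4 * A ^ 3 + 27 * B ^ 2 ≠ 0)
    (he : ∀ x : ℤ, x ^ 3 + A * x + B = (x - e₁) * (x - e₂) * (x - e₃))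
    (s : ℕ) (D₀ : ℤ[X]) (hD₀ : D₀ ≠ 0) (D : Fin s → ℤ[X]) (hD : ∀ i, D i ≠ 0) :
    (∀ (F : ℤ → Type) [∀ t, Field (F t)] [∀ t, NumberField (F t)],
      (∀ t, Good D₀ D t → Gen (F t) (fun i => (D i).eval t)) →
      (∀ t, Good D₀ D t → BddAbove {q | HasDiv (Tw A B D₀ t (F t)) q}) ∧
      ∀ x : ℕ → ℝ, ∀ᵐ α : ℝ, ∀ ε : ℝ, 0 < ε → ∀ᶠ n : ℕ in atTop, Good D₀ D ⌊α * x n⌋ →
        (m A B D₀ ⌊α * x n⌋ (F ⌊α * x n⌋) : ℝ) ≤ ε * Real.log n) ∧
    (∀ δ : ℝ, 0 < δ → ∀ k : ℕ, ∃ K : ℝ, ∀ (F : ℤ → Type) [∀ t, Field (F t)]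
      [∀ t, NumberField (F t)], (∀ t, Good D₀ D t → Gen (F t) (fun i => (D i).eval t)) →
      ∀ x : ℕ → ℝ, Tendsto x atTop atTop → (∀ᶠ n in atTop, x n ^ (1 + δ) ≤ x (n + 1)) →
      ∀ᵐ α : ℝ, ∀ᶠ N : ℕ in atTop,
        ∑ n ∈ (range N).filter (fun n => Good D₀ D ⌊α * x n⌋),
          ((2 : ℝ) ^ m A B D₀ ⌊α * x n⌋ (F ⌊α * x n⌋)) ^ k ≤ K * N ∧
        ∀ r : ℕ, (((range N).filter (fun n => Good D₀ D ⌊α * x n⌋ ∧
          r ≤ m A B D₀ ⌊α * x n⌋ (F ⌊α * x n⌋))).card : ℝ) ≤ K * N / 2 ^ (k * r)) ∧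
    (∀ δ : ℝ, 0 < δ → ∃ R : ℕ, ∀ (F : ℤ → Type) [∀ t, Field (F t)] [∀ t, NumberField (F t)],
      (∀ t, Good D₀ D t → Gen (F t) (fun i => (D i).eval t)) →
      ∀ u v : ℝ, u < v → ∃ X₀ : ℝ, ∀ x : ℕ → ℝ, X₀ ≤ x 0 → (∀ n, x n ^ (1 + δ) ≤ x (n + 1)) →
      dimH {α : ℝ | u ≤ α ∧ α ≤ v ∧ ∀ n, Good D₀ D ⌊α * x n⌋ ∧
        m A B D₀ ⌊α * x n⌋ (F ⌊α * x n⌋) ≤ R} = 1) := by
  set f : ℤ → ℝ := Pool.Agent.Q1.RS.mq A B D₀ D with hfd
  have hf0 : ∀ t, 0 ≤ f t := Pool.Agent.Q1.RS.mq_nonneg A B D₀ D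
  have hmom : ∀ k : ℕ, k ≠ 0 → Pool.Agent.Q1.RS.Mom f k := fun k hk =>
    Pool.Agent.Q1.RS.mom_mq hE he D₀ hD₀ D hD hk
  have hbd : ∀ t, Good D₀ D t → ∀ (F : Type) [Field F] [NumberField F],
      Gen F (fun i => (D i).eval t) → BddAbove {q | HasDiv (Tw A B D₀ t F) q} ∧
        (2 : ℝ) ^ m A B D₀ t F ≤ f t := by
    intro t ht F _ _ hF
    have h1 : ∀ q, HasDiv (Tw A B D₀ t F) q → (2 : ℝ) ^ (rk (Tw A B D₀ t F) + q) ≤ f t :=
      fun q hq => Pool.Agent.Q1.RS.mq_bd hE he D₀ D ht hF hq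
    have h2 := Pool.Agent.TH841.NF.bdd_of h1
    exact ⟨h2, h1 _ (Pool.Agent.TH841.NF.crk_mem h2)⟩
  refine ⟨fun F _ _ hF => ⟨fun t ht => (hbd t ht (F t) (hF t ht)).1, fun x => ?_⟩, ?_, ?_⟩
  · -- growth
    filter_upwards [Pool.Agent.Q1.RS.growth_all hf0 hmom x] with α hα ε hε
    have hlog2 : 0 < Real.log 2 := Real.log_pos (by norm_num)
    filter_upwards [hα (ε * Real.log 2) (by positivity), eventually_ge_atTop 1] with
      n h2 hn h3
    have hn0 : (0 : ℝ) < n := by exact_mod_cast hn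
    have h4 := ((hbd _ h3 _ (hF _ h3)).2).trans h2
    have h5 := Real.log_le_log (by positivity) h4
    rw [Real.log_pow, Real.log_rpow hn0] at h5
    have h6 : (m A B D₀ ⌊α * x n⌋ (F ⌊α * x n⌋) : ℝ) * Real.log 2 ≤
        (ε * Real.log n) * Real.log 2 := by
      linarith
    exact le_of_mul_le_mul_right h6 hlog2
  · -- moments
    intro δ hδ
    have key : ∀ k : ℕ, k ≠ 0 → ∃ K : ℝ, ∀ (F : ℤ → Type) [∀ t, Field (F t)]
      [∀ t, NumberField (F t)], (∀ t, Good D₀ D t → Gen (F t) (fun i => (D i).eval t)) →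
      ∀ x : ℕ → ℝ, Tendsto x atTop atTop → (∀ᶠ n in atTop, x n ^ (1 + δ) ≤ x (n + 1)) →
      ∀ᵐ α : ℝ, ∀ᶠ N : ℕ in atTop,
        ∑ n ∈ (range N).filter (fun n => Good D₀ D ⌊α * x n⌋),
          ((2 : ℝ) ^ m A B D₀ ⌊α * x n⌋ (F ⌊α * x n⌋)) ^ k ≤ K * N ∧
        ∀ r : ℕ, (((range N).filter (fun n => Good D₀ D ⌊α * x n⌋ ∧
          r ≤ m A B D₀ ⌊α * x n⌋ (F ⌊α * x n⌋))).card : ℝ) ≤ K * N / 2 ^ (k * r) := by
      intro k hk
      obtain ⟨K, hK⟩ := Pool.Agent.Q1.RS.moment_ae hf0 hk (hmom k hk) (Nat.lt_succ_self k)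
        (hmom (k + 1) (by omega)) hδ
      refine ⟨K, fun F _ _ hF x hxt hx => ?_⟩
      filter_upwards [hK x hxt hx] with α hα
      filter_upwards [hα] with N hN
      refine ⟨le_trans ?_ hN, fun r => ?_⟩
      · rw [sum_filter]
        refine sum_le_sum fun n _ => ?_
        split_ifs with h1
        · exact pow_le_pow_left₀ (by positivity) (hbd _ h1 _ (hF _ h1)).2 k
        · exact pow_nonneg (hf0 _) k
      · have h1 := Pool.Agent.Q1.RS.moment_count hf0 hN (y := (2 : ℝ) ^ r) (by positivity)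
        rw [← pow_mul, mul_comm r k] at h1
        refine le_trans ?_ h1
        refine Nat.cast_le.2 (card_le_card fun n hn => ?_)
        rw [mem_filter] at hn ⊢
        exact ⟨hn.1, le_trans (pow_le_pow_right₀ (by norm_num) hn.2.2)
          (hbd _ hn.2.1 _ (hF _ hn.2.1)).2⟩
    intro k
    rcases Nat.eq_zero_or_pos k with rfl | hk
    · refine ⟨1, fun F _ _ _ x _ _ => Eventually.of_forall fun α => Eventually.of_forall
        fun N => ?_⟩
      have h1 : ∀ (P : ℕ → Prop) [DecidablePred P], (((range N).filter P).card : ℝ) ≤ N :=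
          fun P _ => by
        have := card_filter_le (range N) P
        rw [card_range] at this
        exact_mod_cast this
      refine ⟨?_, fun r => ?_⟩
      · simp only [pow_zero, sum_const, nsmul_eq_mul, mul_one, one_mul]
        exact h1 _
      · rw [Nat.zero_mul, pow_zero, div_one, one_mul]
        exact h1 _
    · exact key k (by omega)
  · -- dimension
    intro δ hδ
    have hZ : {t : ℤ | ¬ Good D₀ D t}.Finite := by
      have h1 : {t : ℤ | ¬ Good D₀ D t} ⊆ ((D₀ * ∏ i, D i).roots.toFinset : Set ℤ) := by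
        intro t ht
        rw [mem_coe, Multiset.mem_toFinset, mem_roots (mul_ne_zero hD₀
          (prod_ne_zero_iff.2 fun i _ => hD i)), IsRoot, eval_mul, eval_prod]
        by_contra h2
        exact ht ⟨(mul_ne_zero_iff.1 h2).1, fun i =>
          prod_ne_zero_iff.1 (mul_ne_zero_iff.1 h2).2 i (mem_univ i)⟩
      exact (finite_toSet _).subset h1
    obtain ⟨R, hR⟩ := Pool.Agent.Q1.RS.dim_mom' hf0 one_ne_zero (hmom 1 one_ne_zero) hZ hδ
    obtain ⟨R', hR'⟩ := pow_unbounded_of_one_lt R (show (1 : ℝ) < 2 by norm_num)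
    refine ⟨R', fun F _ _ hF u v huv => ?_⟩
    obtain ⟨X₀, hX₀⟩ := hR u v huv
    refine ⟨X₀, fun x hx0 hx => ?_⟩
    refine le_antisymm ((dimH_mono (Set.subset_univ _)).trans (by rw [Real.dimH_univ])) ?_
    rw [← hX₀ x hx0 hx]
    refine dimH_mono fun α hα => ⟨hα.1, hα.2.1, fun n => ?_⟩
    obtain ⟨h1, h2⟩ := hα.2.2 n
    have h3 : Good D₀ D ⌊α * x n⌋ := not_not.1 h1
    refine ⟨h3, ?_⟩
    have h4 := (((hbd _ h3 _ (hF _ h3)).2).trans h2).trans hR'.le
    exact (pow_le_pow_iff_right₀ (by norm_num)).1 h4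

end Pool.Agent.Results.MP_78d38b_nt.FieldsAlongSequences
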